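import Pool.Agent.Helper66.NetDefs
import Pool.Agent.Helper66.NetFinal

/-!
# MP_709e2b_gt, Q1: the answer is no

There are three points of the plane which are the unbalanced vertices of geodesic multinets with
all multiplicities at most `676` and arbitrarily many balanced vertices. In particular there is no
function `f` bounding the number of balanced vertices of a geodesic multinet with three unbalanced
vertices in terms of its largest multiplicity.
-/

namespace Pool.Agent.Results.MP_709e2b_gt.NoBound

open Pool.Agent.Helper66

theorem result : ∃ A : Finset ℂ, A.card = 3 ∧ ∀ K : ℕ,
    ∃ N : GeodesicMultinet, N.unbalanced = A ∧ (∀ x y, N.mult x y ≤ 676) ∧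
      K < (N.vertices \ N.unbalanced).card :=
  Geom.main

end Pool.Agent.Results.MP_709e2b_gt.NoBound
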